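import Mathlib

/-!
# Very sparse binary digits can be erased inside a compact set of positive measure
-/

set_option autoImplicit false

open MeasureTheory Filter Topology Set
open scoped ENNReal Pointwise

namespace Run7.h809.UN

theorem exists_step {C : Set ℝ} (hC : IsCompact C) {τ : ℝ≥0∞} (h : τ < volume C) :
    ∀ᶠ t : ℝ in 𝓝 0, τ < volume (C ∩ (t +ᵥ C)) := by
  have hfin : volume C ≠ ∞ := hC.measure_lt_top.ne
  have h1 : Tendsto (fun g : ℝ => volume ((g +ᵥ C) \ C)) (𝓝 0) (𝓝 0) :=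
    tendsto_measure_vadd_sdiff_isCompact_isClosed hC hC.isClosed
  have h2 : Tendsto (fun g : ℝ => volume (((-g) +ᵥ C) \ C)) (𝓝 0) (𝓝 0) := by
    have h3 : Tendsto (fun g : ℝ => -g) (𝓝 0) (𝓝 0) := by
      simpa using (continuous_neg (G := ℝ)).tendsto 0
    exact h1.comp h3
  have hpos : 0 < volume C - τ := tsub_pos_of_lt h
  filter_upwards [h2.eventually_lt_const hpos] with t ht
  have h4 : volume (C \ (t +ᵥ C)) = volume (((-t) +ᵥ C) \ C) := by
    rw [← measure_vadd volume (-t) (C \ (t +ᵥ C)), Set.vadd_set_sdiff, neg_vadd_vadd]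
  have h5 : MeasurableSet (t +ᵥ C) := (hC.vadd t).measurableSet
  have h6 := measure_inter_add_diff (μ := volume) C h5
  rw [h4] at h6
  by_contra hcon
  push Not at hcon
  have h7 : volume C < volume C := by
    calc volume C = volume (C ∩ (t +ᵥ C)) + volume (((-t) +ᵥ C) \ C) := h6.symm
      _ ≤ τ + volume (((-t) +ᵥ C) \ C) := by gcongr
      _ < τ + (volume C - τ) := ENNReal.add_lt_add_left (ne_top_of_lt h) ht
      _ = volume C := add_tsub_cancel_of_le h.le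
  exact lt_irrefl _ h7

/-- thresholds -/
noncomputable def tau (j : ℕ) : ℝ≥0∞ := ENNReal.ofReal (1 / 4 + 1 / 4 * (1 / 2) ^ j)

theorem tau_succ_lt (j : ℕ) : tau (j + 1) < tau j := by
  unfold tau
  apply (ENNReal.ofReal_lt_ofReal_iff (by positivity)).2
  have : (0 : ℝ) < (1 / 2) ^ j := by positivity
  rw [pow_succ]
  linarith

theorem le_tau (j : ℕ) : ENNReal.ofReal (1 / 4) ≤ tau j := by
  unfold tau
  apply ENNReal.ofReal_le_ofReal
  have : (0 : ℝ) < (1 / 2) ^ j := by positivity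
  linarith

theorem exists_seq {C : Set ℝ} (hC : IsCompact C) (h : tau 0 < volume C) (N : ℕ → ℕ) :
    ∃ (s : ℕ → ℕ) (D : ℕ → Set ℝ), StrictMono s ∧ (∀ j, N j ≤ s j) ∧ D 0 = C ∧
      (∀ j, D (j + 1) = D j ∩ (((1 / 2 : ℝ) ^ s j) +ᵥ D j)) ∧ (∀ j, IsCompact (D j)) ∧
      ∀ j, tau j < volume (D j) := by
  have step : ∀ (j : ℕ) (p : {p : Set ℝ × ℕ // IsCompact p.1 ∧ tau j < volume p.1}),
      ∃ q : {q : Set ℝ × ℕ // IsCompact q.1 ∧ tau (j + 1) < volume q.1},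
        q.1.1 = p.1.1 ∩ (((1 / 2 : ℝ) ^ q.1.2) +ᵥ p.1.1) ∧ N j ≤ q.1.2 ∧ p.1.2 < q.1.2 := by
    rintro j ⟨⟨A, m⟩, hA, hm⟩
    have h1 := exists_step hA ((tau_succ_lt j).trans hm)
    have h2 : Tendsto (fun n : ℕ => (1 / 2 : ℝ) ^ n) atTop (𝓝 0) :=
      tendsto_pow_atTop_nhds_zero_of_lt_one (by norm_num) (by norm_num)
    obtain ⟨n, hn1, hn2, hn3⟩ := ((h2.eventually h1).and
      ((eventually_ge_atTop (N j)).and (eventually_gt_atTop m))).exists
    refine ⟨⟨(A ∩ (((1 / 2 : ℝ) ^ n) +ᵥ A), n), ?_, hn1⟩, rfl, hn2, hn3⟩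
    exact hA.inter (hA.vadd _)
  choose f hf using step
  let seq : ∀ j, {p : Set ℝ × ℕ // IsCompact p.1 ∧ tau j < volume p.1} :=
    fun j => Nat.rec ⟨(C, 0), hC, h⟩ f j
  have hseq : ∀ j, seq (j + 1) = f j (seq j) := fun j => rfl
  refine ⟨fun j => (seq (j + 1)).1.2, fun j => (seq j).1.1, ?_, ?_, rfl, ?_, ?_, ?_⟩
  · apply strictMono_nat_of_lt_succ
    intro j
    show (seq (j + 1)).1.2 < (seq (j + 1 + 1)).1.2
    rw [hseq (j + 1)]
    exact (hf (j + 1) (seq (j + 1))).2.2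
  · intro j
    show N j ≤ (seq (j + 1)).1.2
    rw [hseq]
    exact (hf j (seq j)).2.1
  · intro j
    show (seq (j + 1)).1.1 = (seq j).1.1 ∩ (((1 / 2 : ℝ) ^ (seq (j + 1)).1.2) +ᵥ (seq j).1.1)
    rw [hseq]
    exact (hf j (seq j)).1
  · exact fun j => (seq j).2.1
  · exact fun j => (seq j).2.2

theorem shift_mem {C : Set ℝ} {s : ℕ → ℕ} {D : ℕ → Set ℝ} (h0 : D 0 = C)
    (hD : ∀ j, D (j + 1) = D j ∩ (((1 / 2 : ℝ) ^ s j) +ᵥ D j)) (J : ℕ) (x : ℝ) (hx : x ∈ D J)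
    (e : ℕ → ℝ) (he : ∀ i, e i = 0 ∨ e i = 1) :
    x - ∑ i ∈ Finset.range J, e i * (1 / 2 : ℝ) ^ s i ∈ C := by
  induction J generalizing x with
  | zero => simpa [h0] using hx
  | succ J ih =>
    rw [hD] at hx
    obtain ⟨hx1, hx2⟩ := hx
    rw [Finset.sum_range_succ]
    rcases he J with h | h
    · rw [h, zero_mul, add_zero]
      exact ih x hx1
    · rw [h, one_mul]
      obtain ⟨y, hy, hxy⟩ := hx2
      have h1 := ih y hy
      have h2 : x = (1 / 2 : ℝ) ^ s J + y := hxy.symm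
      have h3 : x - (∑ i ∈ Finset.range J, e i * (1 / 2 : ℝ) ^ s i + (1 / 2 : ℝ) ^ s J) =
          y - ∑ i ∈ Finset.range J, e i * (1 / 2 : ℝ) ^ s i := by
        rw [h2]
        ring
      rw [h3]
      exact h1

theorem volume_iInter {s : ℕ → ℕ} {D : ℕ → Set ℝ}
    (hD : ∀ j, D (j + 1) = D j ∩ (((1 / 2 : ℝ) ^ s j) +ᵥ D j)) (hc : ∀ j, IsCompact (D j))
    (hv : ∀ j, tau j < volume (D j)) : 0 < volume (⋂ j, D j) := by
  have hanti : Antitone D := antitone_nat_of_succ_le fun j => by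
    rw [hD]
    exact inter_subset_left
  have h1 := tendsto_measure_iInter_atTop (μ := volume) (s := D)
    (fun j => (hc j).measurableSet.nullMeasurableSet) hanti ⟨0, (hc 0).measure_lt_top.ne⟩
  have h2 : ENNReal.ofReal (1 / 4) ≤ volume (⋂ j, D j) :=
    ge_of_tendsto' h1 fun j => (le_tau j).trans (hv j).le
  exact lt_of_lt_of_le (by simp) h2

/-! ### Digits -/

/-- binary digit number `m` -/
noncomputable def dg (m : ℕ) (x : ℝ) : ℤ := ⌊x * 2 ^ m⌋ % 2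

theorem dg_cases (m : ℕ) (x : ℝ) : dg m x = 0 ∨ dg m x = 1 := by
  unfold dg
  omega

theorem floor_two_mul (y : ℝ) : 2 * ⌊y⌋ ≤ ⌊y * 2⌋ ∧ ⌊y * 2⌋ ≤ 2 * ⌊y⌋ + 1 := by
  constructor
  · rw [Int.le_floor]
    push_cast
    linarith [Int.floor_le y]
  · have h : ⌊y * 2⌋ < 2 * ⌊y⌋ + 2 := by
      rw [Int.floor_lt]
      push_cast
      linarith [Int.lt_floor_add_one y]
    omega

theorem floor_succ (m : ℕ) (x : ℝ) : ⌊x * 2 ^ (m + 1)⌋ = 2 * ⌊x * 2 ^ m⌋ + dg (m + 1) x := by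
  unfold dg
  rw [pow_succ, ← mul_assoc]
  have := floor_two_mul (x * 2 ^ m)
  omega

theorem scaled_mono (x : ℝ) : Monotone fun m : ℕ => (⌊x * 2 ^ m⌋ : ℝ) * (1 / 2) ^ m := by
  apply monotone_nat_of_le_succ
  intro m
  rw [floor_succ, pow_succ]
  push_cast
  have h1 : (0 : ℝ) ≤ dg (m + 1) x := by
    rcases dg_cases (m + 1) x with h | h <;> simp [h]
  have h2 : (0 : ℝ) < (1 / 2) ^ m := by positivity
  nlinarith

theorem scaled_add (x : ℝ) {m n : ℕ} (h : m < n) :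
    (⌊x * 2 ^ m⌋ : ℝ) * (1 / 2) ^ m + dg n x * (1 / 2) ^ n ≤ (⌊x * 2 ^ n⌋ : ℝ) * (1 / 2) ^ n := by
  obtain ⟨k, rfl⟩ := Nat.exists_eq_add_of_lt h
  have h1 := scaled_mono x (Nat.le_add_right m k)
  simp only at h1
  rw [floor_succ, pow_succ]
  push_cast
  have h2 : (2 * (⌊x * 2 ^ (m + k)⌋ : ℝ) + (dg (m + k + 1) x : ℝ)) * ((1 / 2) ^ (m + k) * (1 / 2)) =
    (⌊x * 2 ^ (m + k)⌋ : ℝ) * (1 / 2) ^ (m + k) + dg (m + k + 1) x * ((1 / 2) ^ (m + k) * (1 / 2)) := by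
    ring
  rw [h2]
  linarith

/-- partial sums -/
noncomputable def PS (s : ℕ → ℕ) (J : ℕ) (x : ℝ) : ℝ :=
  ∑ i ∈ Finset.range J, (dg (s i) x : ℝ) * (1 / 2 : ℝ) ^ s i

theorem tail_le {s : ℕ → ℕ} (hs : StrictMono s) (x : ℝ) (i : ℕ) {J : ℕ} (hJ : i < J) :
    (⌊x * 2 ^ s i⌋ : ℝ) * (1 / 2) ^ s i + (PS s J x - PS s (i + 1) x) ≤
      (⌊x * 2 ^ s (J - 1)⌋ : ℝ) * (1 / 2) ^ s (J - 1) := by
  induction J, hJ using Nat.le_induction with
  | base => simp
  | succ J hJ ih =>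
    have h1 : PS s (J + 1) x = PS s J x + (dg (s J) x : ℝ) * (1 / 2 : ℝ) ^ s J := by
      unfold PS
      rw [Finset.sum_range_succ]
    have h2 := scaled_add x (hs (show J - 1 < J by omega))
    rw [h1, Nat.add_sub_cancel]
    linarith

theorem dgR_cases (m : ℕ) (x : ℝ) : (dg m x : ℝ) = 0 ∨ (dg m x : ℝ) = 1 := by
  rcases dg_cases m x with h | h
  · left; simp [h]
  · right; simp [h]

theorem dgR_nonneg (m : ℕ) (x : ℝ) : (0 : ℝ) ≤ dg m x := by
  rcases dgR_cases m x with h | h <;> rw [h] <;> norm_num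

theorem dgR_le_one (m : ℕ) (x : ℝ) : (dg m x : ℝ) ≤ 1 := by
  rcases dgR_cases m x with h | h <;> rw [h] <;> norm_num

theorem PS_mono (s : ℕ → ℕ) (x : ℝ) : Monotone fun J => PS s J x := by
  apply monotone_nat_of_le_succ
  intro J
  unfold PS
  rw [Finset.sum_range_succ]
  have := mul_nonneg (dgR_nonneg (s J) x) (by positivity : (0 : ℝ) ≤ (1 / 2 : ℝ) ^ s J)
  linarith

theorem floor_le_self (x : ℝ) (m : ℕ) : (⌊x * 2 ^ m⌋ : ℝ) * (1 / 2) ^ m ≤ x := by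
  have h1 := Int.floor_le (x * 2 ^ m)
  have h2 : (0 : ℝ) < (1 / 2) ^ m := by positivity
  have h3 : x * 2 ^ m * (1 / 2) ^ m = x := by
    rw [mul_assoc, ← mul_pow]
    norm_num
  calc (⌊x * 2 ^ m⌋ : ℝ) * (1 / 2) ^ m ≤ x * 2 ^ m * (1 / 2) ^ m := by gcongr
    _ = x := h3

/-- after erasing, the digit is zero -/
theorem sin_nonneg_of_lt {s : ℕ → ℕ} (hs : StrictMono s) (h1s : ∀ j, 1 ≤ s j) (x : ℝ) {i J : ℕ}
    (hJ : i < J) : 0 ≤ Real.sin (2 * Real.pi * (2 ^ (s i - 1) * (x - PS s J x))) := by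
  -- the integer part of the erased sum
  have hint : ∃ n : ℤ, (2 : ℝ) ^ (s i - 1) * PS s i x = n := by
    refine ⟨∑ l ∈ Finset.range i, dg (s l) x * 2 ^ (s i - 1 - s l), ?_⟩
    unfold PS
    push_cast
    rw [Finset.mul_sum]
    refine Finset.sum_congr rfl fun l hl => ?_
    have hl' : s l < s i := hs (Finset.mem_range.1 hl)
    have h2 : s i - 1 = (s i - 1 - s l) + s l := by omega
    have h3 : (2 : ℝ) ^ (s i - 1) = 2 ^ (s i - 1 - s l) * 2 ^ s l := by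
      rw [← pow_add, ← h2]
    rw [h3]
    have h4 : (2 : ℝ) ^ s l * (1 / 2) ^ s l = 1 := by
      rw [← mul_pow]; norm_num
    calc (2 : ℝ) ^ (s i - 1 - s l) * 2 ^ s l * ((dg (s l) x : ℝ) * (1 / 2) ^ s l) =
        (dg (s l) x : ℝ) * 2 ^ (s i - 1 - s l) * (2 ^ s l * (1 / 2) ^ s l) := by ring
      _ = _ := by rw [h4, mul_one]
  obtain ⟨n, hn⟩ := hint
  set F : ℤ := ⌊x * 2 ^ (s i - 1)⌋ with hF
  have hsi : s i - 1 + 1 = s i := by have := h1s i; omega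
  have hfl : ⌊x * 2 ^ s i⌋ = 2 * F + dg (s i) x := by
    have := floor_succ (s i - 1) x
    rw [hsi] at this
    exact this
  set R : ℝ := PS s J x - PS s (i + 1) x with hR
  have hR0 : 0 ≤ R := by
    have := PS_mono s x (show i + 1 ≤ J by omega)
    simp only at this
    rw [hR]
    linarith
  have hRle := (tail_le hs x i hJ).trans (floor_le_self x (s (J - 1)))
  rw [← hR] at hRle
  have hP : PS s J x = PS s i x + (dg (s i) x : ℝ) * (1 / 2) ^ s i + R := by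
    rw [hR]
    unfold PS
    rw [Finset.sum_range_succ]
    ring
  have hpow : (2 : ℝ) ^ (s i - 1) * (1 / 2) ^ s i = 1 / 2 := by
    have h5 : (1 / 2 : ℝ) ^ s i = (1 / 2) ^ (s i - 1) * (1 / 2) := by
      rw [← pow_succ, hsi]
    rw [h5, ← mul_assoc, ← mul_pow]
    norm_num
  have hpow2 : (2 : ℝ) ^ s i = 2 ^ (s i - 1) * 2 := by
    rw [← pow_succ, hsi]
  have hpos : (0 : ℝ) < 2 ^ (s i - 1) := by positivity
  set v : ℝ := 2 ^ (s i - 1) * x - F - (dg (s i) x : ℝ) / 2 - 2 ^ (s i - 1) * R with hv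
  have hkey : (2 : ℝ) ^ (s i - 1) * (x - PS s J x) = ((F - n : ℤ) : ℝ) + v := by
    have h6 : (2 : ℝ) ^ (s i - 1) * (x - PS s J x) = 2 ^ (s i - 1) * x - 2 ^ (s i - 1) * PS s i x -
        (dg (s i) x : ℝ) * (2 ^ (s i - 1) * (1 / 2) ^ s i) - 2 ^ (s i - 1) * R := by
      rw [hP]; ring
    rw [h6, hn, hpow, hv]
    push_cast
    ring
  have hv0 : 0 ≤ v := by
    have h7 : (2 : ℝ) ^ (s i - 1) * ((⌊x * 2 ^ s i⌋ : ℝ) * (1 / 2) ^ s i + R) ≤ 2 ^ (s i - 1) * x :=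
      mul_le_mul_of_nonneg_left hRle hpos.le
    have h8 : (2 : ℝ) ^ (s i - 1) * ((⌊x * 2 ^ s i⌋ : ℝ) * (1 / 2) ^ s i + R) =
        (⌊x * 2 ^ s i⌋ : ℝ) * (2 ^ (s i - 1) * (1 / 2) ^ s i) + 2 ^ (s i - 1) * R := by ring
    rw [h8, hpow, hfl] at h7
    push_cast at h7
    rw [hv]
    linarith
  have hv1 : v ≤ 1 / 2 := by
    have h9 := Int.lt_floor_add_one (x * 2 ^ s i)
    rw [hfl, hpow2] at h9
    push_cast at h9
    have h10 : 0 ≤ (2 : ℝ) ^ (s i - 1) * R := mul_nonneg hpos.le hR0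
    rw [hv]
    nlinarith
  rw [hkey]
  have h11 : 2 * Real.pi * (((F - n : ℤ) : ℝ) + v) = 2 * Real.pi * v + ((F - n : ℤ) : ℝ) * (2 * Real.pi) := by
    ring
  rw [h11, Real.sin_add_int_mul_two_pi]
  apply Real.sin_nonneg_of_nonneg_of_le_pi
  · have := Real.pi_pos
    positivity
  · have := Real.pi_pos
    nlinarith

/-- the point with all digits `s i` erased -/
noncomputable def TT (s : ℕ → ℕ) (x : ℝ) : ℝ := x - ∑' i, (dg (s i) x : ℝ) * (1 / 2 : ℝ) ^ s i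

theorem summable_dg {s : ℕ → ℕ} (hs : StrictMono s) (x : ℝ) :
    Summable fun i => (dg (s i) x : ℝ) * (1 / 2 : ℝ) ^ s i := by
  refine Summable.of_nonneg_of_le (fun i => mul_nonneg (dgR_nonneg _ _) (by positivity))
    (fun i => ?_) (summable_geometric_of_lt_one (by norm_num) (by norm_num : (1 / 2 : ℝ) < 1))
  calc (dg (s i) x : ℝ) * (1 / 2 : ℝ) ^ s i ≤ 1 * (1 / 2 : ℝ) ^ s i := by
        gcongr
        exact dgR_le_one _ _
    _ = (1 / 2 : ℝ) ^ s i := one_mul _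
    _ ≤ (1 / 2 : ℝ) ^ i := pow_le_pow_of_le_one (by norm_num) (by norm_num) (hs.le_apply)

theorem tendsto_TT {s : ℕ → ℕ} (hs : StrictMono s) (x : ℝ) :
    Tendsto (fun J => x - PS s J x) atTop (𝓝 (TT s x)) :=
  ((summable_dg hs x).hasSum.tendsto_sum_nat).const_sub x

theorem sin_TT {s : ℕ → ℕ} (hs : StrictMono s) (h1s : ∀ j, 1 ≤ s j) (x : ℝ) (i : ℕ) :
    0 ≤ Real.sin (2 * Real.pi * (2 ^ (s i - 1) * TT s x)) := by
  have hcont : Continuous fun y : ℝ => Real.sin (2 * Real.pi * (2 ^ (s i - 1) * y)) := by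
    fun_prop
  have h1 := (hcont.tendsto (TT s x)).comp (tendsto_TT hs x)
  apply ge_of_tendsto h1
  filter_upwards [eventually_gt_atTop i] with J hJ
  exact sin_nonneg_of_lt hs h1s x hJ

theorem sum_pow_le {s : ℕ → ℕ} (hs : StrictMono s) (J n : ℕ) :
    ∑ i ∈ Finset.range n, (1 / 2 : ℝ) ^ s (J + i) ≤ 2 * (1 / 2) ^ s J := by
  have h1 : ∀ i, (1 / 2 : ℝ) ^ s (J + i) ≤ (1 / 2) ^ s J * (1 / 2) ^ i := by
    intro i
    rw [← pow_add]
    apply pow_le_pow_of_le_one (by norm_num) (by norm_num)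
    induction i with
    | zero => simp
    | succ i ih =>
      have := hs (show J + i < J + (i + 1) by omega)
      omega
  calc ∑ i ∈ Finset.range n, (1 / 2 : ℝ) ^ s (J + i) ≤
      ∑ i ∈ Finset.range n, (1 / 2) ^ s J * (1 / 2) ^ i := Finset.sum_le_sum fun i _ => h1 i
    _ = (1 / 2) ^ s J * ∑ i ∈ Finset.range n, (1 / 2 : ℝ) ^ i := by rw [Finset.mul_sum]
    _ ≤ (1 / 2) ^ s J * 2 := by
        gcongr
        have := Summable.sum_le_tsum (Finset.range n) (fun i _ => by positivity)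
          (summable_geometric_of_lt_one (by norm_num) (by norm_num : (1 / 2 : ℝ) < 1))
        rwa [tsum_geometric_two] at this
    _ = _ := by ring

theorem TT_bounds {s : ℕ → ℕ} (hs : StrictMono s) (x : ℝ) (J : ℕ) :
    TT s x + PS s J x ≤ x ∧ x ≤ TT s x + PS s J x + 2 * (1 / 2) ^ s J := by
  have h1 : ∀ M, J ≤ M → PS s J x ≤ PS s M x ∧ PS s M x ≤ PS s J x + 2 * (1 / 2) ^ s J := by
    intro M hM
    refine ⟨PS_mono s x hM, ?_⟩
    obtain ⟨n, rfl⟩ := Nat.exists_eq_add_of_le hM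
    unfold PS
    rw [Finset.sum_range_add]
    have h2 : ∑ i ∈ Finset.range n, (dg (s (J + i)) x : ℝ) * (1 / 2 : ℝ) ^ s (J + i) ≤
        ∑ i ∈ Finset.range n, (1 / 2 : ℝ) ^ s (J + i) := by
      refine Finset.sum_le_sum fun i _ => ?_
      calc (dg (s (J + i)) x : ℝ) * (1 / 2 : ℝ) ^ s (J + i) ≤ 1 * (1 / 2 : ℝ) ^ s (J + i) := by
            gcongr
            exact dgR_le_one _ _
        _ = _ := one_mul _
    linarith [sum_pow_le hs J n]
  have h3 := tendsto_TT hs x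
  constructor
  · have h4 : TT s x ≤ x - PS s J x := by
      apply le_of_tendsto h3
      filter_upwards [eventually_ge_atTop J] with M hM
      linarith [(h1 M hM).1]
    linarith
  · have h4 : x - PS s J x - 2 * (1 / 2) ^ s J ≤ TT s x := by
      apply ge_of_tendsto h3
      filter_upwards [eventually_ge_atTop J] with M hM
      linarith [(h1 M hM).2]
    linarith

open Classical in
/-- the covering of the preimage of a set of small diameter -/
theorem volume_preimage_le {s : ℕ → ℕ} (hs : StrictMono s) (a r : ℝ) (E : Set ℝ)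
    (hE : E ⊆ Icc a (a + r)) (J : ℕ) :
    volume (TT s ⁻¹' E) ≤ ENNReal.ofReal (2 ^ J * (r + 2 * (1 / 2) ^ s J)) := by
  have hsub : TT s ⁻¹' E ⊆ ⋃ F ∈ (Finset.range J).powerset,
      Icc (a + ∑ i ∈ F, (1 / 2 : ℝ) ^ s i) (a + r + ∑ i ∈ F, (1 / 2 : ℝ) ^ s i + 2 * (1 / 2) ^ s J) := by
    intro x hx
    have hx' : TT s x ∈ Icc a (a + r) := hE hx
    obtain ⟨h1, h2⟩ := TT_bounds hs x J
    have h3 : PS s J x = ∑ i ∈ (Finset.range J).filter (fun i => dg (s i) x = 1), (1 / 2 : ℝ) ^ s i := by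
      unfold PS
      rw [Finset.sum_filter]
      refine Finset.sum_congr rfl fun i _ => ?_
      rcases dg_cases (s i) x with h | h <;> simp [h]
    rw [mem_iUnion₂]
    refine ⟨(Finset.range J).filter (fun i => dg (s i) x = 1),
      Finset.mem_powerset.2 (Finset.filter_subset _ _), ?_⟩
    rw [← h3]
    constructor
    · linarith [hx'.1]
    · linarith [hx'.2]
  refine (measure_mono hsub).trans ?_
  refine (measure_biUnion_finset_le _ _).trans ?_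
  simp only [Real.volume_Icc]
  have h4 : ∀ F ∈ (Finset.range J).powerset,
      ENNReal.ofReal (a + r + ∑ i ∈ F, (1 / 2 : ℝ) ^ s i + 2 * (1 / 2) ^ s J -
        (a + ∑ i ∈ F, (1 / 2 : ℝ) ^ s i)) = ENNReal.ofReal (r + 2 * (1 / 2) ^ s J) := by
    intro F _
    congr 1
    ring
  rw [Finset.sum_congr rfl h4, Finset.sum_const, Finset.card_powerset, Finset.card_range,
    nsmul_eq_mul, ENNReal.ofReal_mul (by positivity)]
  apply le_of_eq
  congr 1
  rw [ENNReal.ofReal_pow (by norm_num)]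
  simp

end Run7.h809.UN
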