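import Pool.Agent.Run7.h809.UN.Norm
import Pool.Agent.Run7.h809.UN.Shift
import Pool.Agent.Y249.SU.Raj
import Pool.Agent.Y249.SU.Bump

/-!
# Closed sets of uniqueness of positive measure for a given gauge function inside a conull set
-/

set_option autoImplicit false

open MeasureTheory Filter Topology Set
open scoped ENNReal Pointwise

namespace Run7.h809.UN

/-- the set with erased digits, as a closed set -/
def KK (s : ℕ → ℕ) : Set ℝ :=
  {y : ℝ | y ∈ Icc (0 : ℝ) 1 ∧ ∀ i, 0 ≤ Real.sin (2 * Real.pi * (2 ^ (s i - 1) * y))}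

theorem isClosed_KK (s : ℕ → ℕ) : IsClosed (KK s) := by
  have h1 : KK s = Icc (0 : ℝ) 1 ∩ ⋂ i, {y : ℝ | 0 ≤ Real.sin (2 * Real.pi * (2 ^ (s i - 1) * y))} := by
    ext y
    simp [KK]
  rw [h1]
  refine isClosed_Icc.inter (isClosed_iInter fun i => ?_)
  exact isClosed_le continuous_const (by fun_prop)

open Pool.Agent.Y249.SU in
theorem lam_add_int (γ : ℤ → ℂ) (x : ℝ) (m : ℤ) : lam γ (x + m) = lam γ x := by
  unfold lam
  congr 1
  ext j
  have : E j (m : ℝ) = 1 := by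
    rw [E]
    have : (2 * (Real.pi : ℂ) * Complex.I * (j : ℂ) * ((m : ℝ) : ℂ)) =
        ((j * m : ℤ) : ℂ) * (2 * Real.pi * Complex.I) := by
      push_cast
      ring
    rw [this, Complex.exp_int_mul_two_pi_mul_I]
  rw [E_add, this, mul_one]

theorem fract_le_half {z : ℝ} (hz : 0 ≤ Real.sin (2 * Real.pi * z)) : Int.fract z ∈ Icc (0 : ℝ) (1 / 2) := by
  refine ⟨Int.fract_nonneg z, ?_⟩
  by_contra hcon
  push Not at hcon
  have h1 : 2 * Real.pi * z = 2 * Real.pi * Int.fract z + (⌊z⌋ : ℝ) * (2 * Real.pi) := by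
    have := Int.floor_add_fract z
    nlinarith [Real.pi_pos]
  rw [h1, Real.sin_add_int_mul_two_pi] at hz
  have h2 : Real.sin (2 * Real.pi * Int.fract z) < 0 := by
    have h3 : 2 * Real.pi * Int.fract z = (2 * Real.pi * Int.fract z - 2 * Real.pi) + 2 * Real.pi := by
      ring
    rw [h3, Real.sin_add_two_pi]
    apply Real.sin_neg_of_neg_of_neg_pi_lt
    · have := Int.fract_lt_one z
      nlinarith [Real.pi_pos]
    · nlinarith [Real.pi_pos]
  linarith

open Pool.Agent.Y249.SU in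
/-- `KK s` is a set of uniqueness. -/
theorem unique_KK {s : ℕ → ℕ} (hs : StrictMono s) (h1s : ∀ j, 1 ≤ s j) (c : ℤ → ℂ)
    (hc : ∀ x : ℝ, (∀ m : ℤ, x + (m:ℝ) ∉ KK s) →
            Tendsto (fun N : ℕ => ∑ n ∈ Finset.Icc (-(N:ℤ)) (N:ℤ),
              c n * Complex.exp (2 * (Real.pi:ℂ) * Complex.I * (n:ℂ) * (x:ℂ))) atTop (𝓝 0)) (n : ℤ) :
    c n = 0 := by
  obtain ⟨γ, hγ, hγ0, hγz⟩ := exists_gamma
  have hM : Tendsto (fun i : ℕ => ((2 ^ (s i - 1) : ℕ) : ℤ)) atTop atTop := by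
    have h1 : Tendsto (fun i : ℕ => s i - 1) atTop atTop :=
      (tendsto_sub_atTop_nat 1).comp hs.tendsto_atTop
    have h2 : Tendsto (fun i : ℕ => (2 : ℕ) ^ (s i - 1)) atTop atTop :=
      (tendsto_pow_atTop_atTop_of_one_lt (by norm_num : (1 : ℕ) < 2)).comp h1
    exact tendsto_natCast_atTop_atTop.comp h2
  have hsi : s 0 - 1 + 1 = s 0 := by have := h1s 0; omega
  have hp : (2 : ℝ) ^ (s 0 - 1) * (1 / 2) ^ s 0 = 1 / 2 := by
    have h5 : (1 / 2 : ℝ) ^ s 0 = (1 / 2) ^ (s 0 - 1) * (1 / 2) := by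
      rw [← pow_succ, hsi]
    rw [h5, ← mul_assoc, ← mul_pow]
    norm_num
  have hq : (0 : ℝ) < (1 / 2) ^ s 0 := by positivity
  have h2q : (0 : ℝ) < 2 ^ (s 0 - 1) := by positivity
  refine uniqueness (K := KK s) hM hγ hγ0 ?_ (a := (1 / 2) ^ s 0) (b := 2 * (1 / 2) ^ s 0)
    (by linarith) ?_ (c := c) (fun x hx => ?_) n
  · intro x hx i
    have h3 := hx.2 i
    have h4 := fract_le_half h3
    have h5 : (((2 ^ (s i - 1) : ℕ) : ℤ) : ℝ) * x =
        Int.fract (2 ^ (s i - 1) * x) + ((⌊2 ^ (s i - 1) * x⌋ : ℤ) : ℝ) := by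
      rw [Int.fract_add_floor]
      push_cast
      ring
    rw [h5, lam_add_int]
    exact hγz _ h4
  · intro x hx m hm
    have h3 := hm.2 0
    have h4 : 2 * Real.pi * (2 ^ (s 0 - 1) * (x + m)) =
        (2 * Real.pi * (2 ^ (s 0 - 1) * x) - 2 * Real.pi) + ((m * 2 ^ (s 0 - 1) + 1 : ℤ) : ℝ) * (2 * Real.pi) := by
      push_cast
      ring
    rw [h4, Real.sin_add_int_mul_two_pi] at h3
    have h5 : Real.sin (2 * Real.pi * (2 ^ (s 0 - 1) * x) - 2 * Real.pi) < 0 := by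
      have h6 : (1 / 2 : ℝ) < 2 ^ (s 0 - 1) * x := by
        calc (1 / 2 : ℝ) = 2 ^ (s 0 - 1) * (1 / 2) ^ s 0 := hp.symm
          _ < 2 ^ (s 0 - 1) * x := by
            have := hx.1
            gcongr
      have h7 : 2 ^ (s 0 - 1) * x < 1 := by
        calc 2 ^ (s 0 - 1) * x < 2 ^ (s 0 - 1) * (2 * (1 / 2) ^ s 0) := by
              have := hx.2
              gcongr
          _ = 2 * (2 ^ (s 0 - 1) * (1 / 2) ^ s 0) := by ring
          _ = 1 := by rw [hp]; norm_num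
      apply Real.sin_neg_of_neg_of_neg_pi_lt
      · nlinarith [Real.pi_pos]
      · nlinarith [Real.pi_pos]
    linarith
  · exact hc x hx

/-- **Main construction.** Every set of full measure in `(0,1]` meets a closed set of uniqueness in a
set of positive `φ`-measure. -/
theorem main (A : Set ℝ) (hA : ∀ᵐ x : ℝ ∂(volume.restrict (Ioc (0 : ℝ) 1)), x ∈ A)
    (φ : ℝ → ℝ) (h0 : φ 0 = 0) (hpos : ∀ r : ℝ, 0 < r → 0 < φ r)
    (hlim : Tendsto (fun r : ℝ => r / φ r) (𝓝[>] (0:ℝ)) (𝓝 0)) :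
    ∃ s : ℕ → ℕ, StrictMono s ∧ (∀ j, 1 ≤ s j) ∧
      0 < MeasureTheory.Measure.mkMetric (fun r : ℝ≥0∞ => ENNReal.ofReal (φ r.toReal)) (KK s ∩ A) := by
  -- a compact subset of `A`
  obtain ⟨C, hCA, hC, hCv⟩ : ∃ C : Set ℝ, C ⊆ A ∩ Icc 0 1 ∧ IsCompact C ∧ tau 0 < volume C := by
    rw [ae_restrict_iff' measurableSet_Ioc, ae_iff] at hA
    set Z := toMeasurable volume {a : ℝ | ¬(a ∈ Ioc (0 : ℝ) 1 → a ∈ A)} with hZ
    have hZ0 : volume Z = 0 := by rw [hZ, measure_toMeasurable]; exact hA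
    have hB : MeasurableSet (Ioc (0 : ℝ) 1 \ Z) := measurableSet_Ioc.diff (measurableSet_toMeasurable _ _)
    have hBv : volume (Ioc (0 : ℝ) 1 \ Z) = 1 := by
      rw [measure_sdiff_null hZ0, Real.volume_Ioc]
      simp
    have htau : tau 0 < volume (Ioc (0 : ℝ) 1 \ Z) := by
      rw [hBv]
      unfold tau
      rw [← ENNReal.ofReal_one]
      apply (ENNReal.ofReal_lt_ofReal_iff (by norm_num)).2
      norm_num
    obtain ⟨C, hC1, hC2, hC3⟩ := hB.exists_lt_isCompact htau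
    refine ⟨C, fun x hx => ?_, hC2, hC3⟩
    obtain ⟨hx1, hx2⟩ := hC1 hx
    refine ⟨?_, Ioc_subset_Icc_self hx1⟩
    by_contra hcon
    exact hx2 (subset_toMeasurable volume _ (fun h => hcon (h hx1)))
  -- thresholds for the gauge function
  have hN : ∀ j : ℕ, ∃ n : ℕ, ∀ m, n ≤ m → ∀ r : ℝ, 0 < r → r ≤ 2 * (1 / 2) ^ m → 2 ^ (j + 2) * r ≤ φ r := by
    intro j
    have h1 : ∀ᶠ r : ℝ in 𝓝[>] (0 : ℝ), r / φ r < 1 / 2 ^ (j + 2) :=
      hlim.eventually_lt_const (by positivity)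
    rw [eventually_nhdsWithin_iff, Metric.eventually_nhds_iff] at h1
    obtain ⟨ε, hε, h1⟩ := h1
    have h2 : Tendsto (fun n : ℕ => 2 * (1 / 2 : ℝ) ^ n) atTop (𝓝 0) := by
      have := (tendsto_pow_atTop_nhds_zero_of_lt_one (by norm_num) (by norm_num : (1 / 2 : ℝ) < 1)).const_mul 2
      rwa [mul_zero] at this
    obtain ⟨n, hn⟩ := (h2.eventually_lt_const hε).exists
    refine ⟨n, fun m hm r hr hr2 => ?_⟩
    have h3 : (1 / 2 : ℝ) ^ m ≤ (1 / 2) ^ n := pow_le_pow_of_le_one (by norm_num) (by norm_num) hm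
    have h4 := h1 (y := r) (by rw [Real.dist_eq, sub_zero, abs_of_pos hr]; linarith) hr
    rw [div_lt_div_iff₀ (hpos r hr) (by positivity)] at h4
    linarith
  choose N hN using hN
  obtain ⟨s, D, hs, hsN, hD0, hD, hDc, hDv⟩ := exists_seq hC hCv (fun j => max (N j) (2 * j + 2))
  have h1s : ∀ j, 1 ≤ s j := fun j => by
    have := (le_max_right (N j) (2 * j + 2)).trans (hsN j)
    omega
  refine ⟨s, hs, h1s, ?_⟩
  set Cinf := ⋂ j, D j with hCinf
  have hpos' : 0 < volume Cinf := volume_iInter hD hDc hDv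
  -- the image is in `KK s ∩ A`
  have hT : ∀ x ∈ Cinf, TT s x ∈ KK s ∩ A := by
    intro x hx
    have h2 : TT s x ∈ C := by
      apply hC.isClosed.mem_of_tendsto (tendsto_TT hs x)
      refine Eventually.of_forall fun J => ?_
      exact shift_mem hD0 hD J x (mem_iInter.1 hx J) (fun i => (dg (s i) x : ℝ)) fun i => dgR_cases _ _
    exact ⟨⟨(hCA h2).2, sin_TT hs h1s x⟩, (hCA h2).1⟩
  set μ : OuterMeasure ℝ := OuterMeasure.map (TT s) volume.toOuterMeasure with hμ
  have hμa : ∀ E : Set ℝ, μ E = volume (TT s ⁻¹' E) := fun E => rfl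
  have hr0 : (0 : ℝ≥0∞) < ENNReal.ofReal (2 * (1 / 2) ^ s 0) := by
    rw [ENNReal.ofReal_pos]
    positivity
  have hpw : ∀ J, (2 : ℝ) ^ J * (2 * (1 / 2) ^ s J) ≤ (1 / 2) ^ J := by
    intro J
    have h3 : 2 * J + 2 ≤ s J := (le_max_right (N J) (2 * J + 2)).trans (hsN J)
    have h4 : (1 / 2 : ℝ) ^ s J ≤ (1 / 2) ^ (2 * J + 2) := pow_le_pow_of_le_one (by norm_num) (by norm_num) h3
    calc (2 : ℝ) ^ J * (2 * (1 / 2) ^ s J) ≤ 2 ^ J * (2 * (1 / 2) ^ (2 * J + 2)) := by gcongr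
      _ = (2 ^ J * (1 / 2) ^ J) * (1 / 2) ^ J * (1 / 2) := by ring
      _ = (1 / 2) ^ J * (1 / 2) := by rw [← mul_pow]; norm_num
      _ ≤ (1 / 2) ^ J := by
        have : (0 : ℝ) < (1 / 2) ^ J := by positivity
        linarith
  have hle : μ ≤ OuterMeasure.mkMetric (fun r : ℝ≥0∞ => ENNReal.ofReal (φ r.toReal)) := by
    refine OuterMeasure.le_mkMetric _ _ _ hr0 fun E hE => ?_
    rw [hμa]
    rcases E.eq_empty_or_nonempty with rfl | hne
    · simp
    have hEfin : Metric.ediam E ≠ ∞ := (hE.trans_lt ENNReal.ofReal_lt_top).ne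
    have hb : Bornology.IsBounded E := Metric.isBounded_iff_ediam_ne_top.2 hEfin
    set r : ℝ := (Metric.ediam E).toReal with hr
    have hrdiam : r = Metric.diam E := rfl
    have hEsub : E ⊆ Icc (sInf E) (sInf E + r) := by
      rw [hrdiam, Real.diam_eq hb]
      intro y hy
      constructor
      · exact csInf_le hb.bddBelow hy
      · have := le_csSup hb.bddAbove hy
        linarith
    have hrn : 0 ≤ r := ENNReal.toReal_nonneg
    have hrle : r ≤ 2 * (1 / 2) ^ s 0 := by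
      rw [hr]
      exact ENNReal.toReal_le_of_le_ofReal (by positivity) hE
    have hvol := fun J => volume_preimage_le hs (sInf E) r E hEsub J
    rcases hrn.eq_or_lt with hr00 | hrpos
    · -- diameter zero
      rw [← hr00, h0, ENNReal.ofReal_zero]
      have h5 : Tendsto (fun J : ℕ => ENNReal.ofReal ((1 / 2) ^ J)) atTop (𝓝 0) := by
        have := ENNReal.tendsto_ofReal
          (tendsto_pow_atTop_nhds_zero_of_lt_one (by norm_num) (by norm_num : (1 / 2 : ℝ) < 1))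
        rwa [ENNReal.ofReal_zero] at this
      refine ge_of_tendsto' h5 fun J => (hvol J).trans (ENNReal.ofReal_le_ofReal ?_)
      rw [← hr00, zero_add]
      exact hpw J
    · -- positive diameter
      have hex : ∃ J, 2 * (1 / 2 : ℝ) ^ s J ≤ r := by
        have h2 : Tendsto (fun n : ℕ => 2 * (1 / 2 : ℝ) ^ n) atTop (𝓝 0) := by
          have := (tendsto_pow_atTop_nhds_zero_of_lt_one (by norm_num) (by norm_num : (1 / 2 : ℝ) < 1)).const_mul 2
          rwa [mul_zero] at this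
        obtain ⟨J, hJ⟩ := ((h2.comp hs.tendsto_atTop).eventually_lt_const hrpos).exists
        exact ⟨J, hJ.le⟩
      classical
      set J := Nat.find hex with hJ
      have hJ1 : 2 * (1 / 2 : ℝ) ^ s J ≤ r := Nat.find_spec hex
      refine (hvol J).trans (ENNReal.ofReal_le_ofReal ?_)
      have h6 : (2 : ℝ) ^ J * (r + 2 * (1 / 2) ^ s J) ≤ 2 ^ (J + 1) * r := by
        rw [pow_succ]
        have : (0 : ℝ) < 2 ^ J := by positivity
        nlinarith
      refine h6.trans ?_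
      rcases Nat.eq_zero_or_pos J with hJ0 | hJpos
      · have h7 := hN 0 (s 0) ((le_max_left _ _).trans (hsN 0)) r hrpos hrle
        rw [hJ0]
        refine le_trans ?_ h7
        norm_num
        linarith
      · obtain ⟨j, hj⟩ := Nat.exists_eq_succ_of_ne_zero hJpos.ne'
        have h8 : ¬ (2 * (1 / 2 : ℝ) ^ s j ≤ r) := Nat.find_min hex (by omega)
        push Not at h8
        have h7 := hN j (s j) ((le_max_left _ _).trans (hsN j)) r hrpos h8.le
        rw [hj]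
        exact h7
  rw [← OuterMeasure.coe_mkMetric]
  refine lt_of_lt_of_le hpos' ((measure_mono fun x hx => ?_).trans (hle (KK s ∩ A)))
  exact hT x hx

end Run7.h809.UN
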