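import Pool.Agent.H165R3.Birk

/-!
# Almost every real number is absolutely normal (digit form)
-/

set_option autoImplicit false

open MeasureTheory Filter Topology Set

namespace Run7.h809.UN

/-- digits of `x` in base `b` at positions `1..k` are `w` -/
def Dig (b k : ℕ) (w : Fin k → ℤ) (x : ℝ) : Prop :=
  ∀ j : Fin k, ⌊x * (b : ℝ) ^ (j.val + 1)⌋ % (b : ℤ) = w j

theorem measurableSet_Dig (b k : ℕ) (w : Fin k → ℤ) : MeasurableSet {x : ℝ | Dig b k w x} := by
  unfold Dig
  simp only [setOf_forall]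
  refine MeasurableSet.iInter fun j => ?_
  have : Measurable fun x : ℝ => ⌊x * (b : ℝ) ^ (j.val + 1)⌋ % (b : ℤ) :=
    (measurable_from_top (f := fun n : ℤ => n % (b : ℤ))).comp
      (Int.measurable_floor.comp (measurable_id.mul_const _))
  exact this (measurableSet_singleton (w j))

/-- the set of numbers in `[0,1)` with prescribed first digits is an interval -/
theorem Dig_interval {b : ℕ} (hb : 2 ≤ b) (k : ℕ) (w : Fin k → ℤ) (hw : ∀ j, 0 ≤ w j ∧ w j < (b : ℤ)) :
    ∃ W : ℤ, 0 ≤ W ∧ W + 1 ≤ (b : ℤ) ^ k ∧ ∀ x : ℝ, x ∈ Ico (0 : ℝ) 1 →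
      (Dig b k w x ↔ ⌊x * (b : ℝ) ^ k⌋ = W) := by
  induction k with
  | zero =>
    refine ⟨0, le_rfl, by simp, fun x hx => ?_⟩
    constructor
    · intro _
      rw [pow_zero, mul_one]
      exact Int.floor_eq_zero_iff.2 hx
    · intro _ j
      exact j.elim0
  | succ k ih =>
    obtain ⟨W, hW0, hW1, hW⟩ := ih (fun j => w j.castSucc) (fun j => hw _)
    obtain ⟨hl0, hl1⟩ := hw (Fin.last k)
    have hbpos : (0 : ℤ) < b := by exact_mod_cast (by omega : 0 < b)
    have hbR : (0 : ℝ) < b := by exact_mod_cast hbpos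
    refine ⟨W * b + w (Fin.last k), by positivity, ?_, fun x hx => ?_⟩
    · rw [pow_succ]
      nlinarith
    · have h1 : Dig b (k + 1) w x ↔ Dig b k (fun j => w j.castSucc) x ∧
          ⌊x * (b : ℝ) ^ (k + 1)⌋ % (b : ℤ) = w (Fin.last k) := by
        unfold Dig
        rw [Fin.forall_fin_succ']
        simp
      rw [h1, hW x hx]
      -- floor relation
      set y := x * (b : ℝ) ^ k with hy
      have hyk : x * (b : ℝ) ^ (k + 1) = y * b := by rw [hy, pow_succ]; ring
      rw [hyk]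
      have h2 : ⌊y⌋ * b ≤ ⌊y * b⌋ := by
        rw [Int.le_floor]
        push_cast
        exact mul_le_mul_of_nonneg_right (Int.floor_le y) hbR.le
      have h3 : ⌊y * b⌋ < ⌊y⌋ * b + b := by
        rw [Int.floor_lt]
        push_cast
        have := Int.lt_floor_add_one y
        nlinarith
      constructor
      · rintro ⟨h4, h5⟩
        rw [h4] at h2 h3
        have h6 : (⌊y * b⌋ - W * b) % (b : ℤ) = w (Fin.last k) := by
          rw [Int.sub_mul_emod_self_right, h5]
        rw [Int.emod_eq_of_lt (by linarith) (by linarith)] at h6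
        linarith
      · intro h4
        have h5 : ⌊y⌋ = W := by
          rw [h4] at h2 h3
          have h6 : ⌊y⌋ * (b : ℤ) < (W + 1) * b := by linarith
          have h7 : W * (b : ℤ) < (⌊y⌋ + 1) * b := by linarith
          have h8 := lt_of_mul_lt_mul_right h6 hbpos.le
          have h9 := lt_of_mul_lt_mul_right h7 hbpos.le
          omega
        refine ⟨h5, ?_⟩
        rw [h4, add_comm, Int.add_mul_emod_self_right]
        exact Int.emod_eq_of_lt hl0 hl1

theorem volume_Dig {b : ℕ} (hb : 2 ≤ b) (k : ℕ) (w : Fin k → ℤ) (hw : ∀ j, 0 ≤ w j ∧ w j < (b : ℤ)) :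
    volume ({x : ℝ | Dig b k w x} ∩ Ico (0 : ℝ) 1) = ENNReal.ofReal (1 / (b : ℝ) ^ k) := by
  obtain ⟨W, hW0, hW1, hW⟩ := Dig_interval hb k w hw
  have hbR : (0 : ℝ) < (b : ℝ) ^ k := by
    have : (0 : ℝ) < b := by exact_mod_cast (by omega : 0 < b)
    positivity
  have hW1' : (W : ℝ) + 1 ≤ (b : ℝ) ^ k := by exact_mod_cast hW1
  have hW0' : (0 : ℝ) ≤ W := by exact_mod_cast hW0
  have h1 : {x : ℝ | Dig b k w x} ∩ Ico (0 : ℝ) 1 =
      Ico ((W : ℝ) / (b : ℝ) ^ k) (((W : ℝ) + 1) / (b : ℝ) ^ k) := by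
    ext x
    simp only [mem_inter_iff, mem_setOf_eq]
    constructor
    · rintro ⟨h2, h3⟩
      rw [hW x h3, Int.floor_eq_iff] at h2
      rw [mem_Ico, div_le_iff₀ hbR, lt_div_iff₀ hbR]
      exact h2
    · rintro ⟨h2, h3⟩
      have h4 : x ∈ Ico (0 : ℝ) 1 := by
        refine ⟨le_trans (by positivity) h2, lt_of_lt_of_le h3 ?_⟩
        rw [div_le_one hbR]
        exact hW1'
      refine ⟨?_, h4⟩
      rw [hW x h4, Int.floor_eq_iff]
      rw [div_le_iff₀ hbR] at h2
      rw [lt_div_iff₀ hbR] at h3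
      exact ⟨h2, h3⟩
  rw [h1, Real.volume_Ico]
  congr 1
  field_simp
  ring

/-- the fractional part on the circle -/
noncomputable def rep (y : AddCircle (1 : ℝ)) : ℝ := (AddCircle.equivIco 1 0 y : ℝ)

theorem rep_coe (x : ℝ) : rep (x : AddCircle (1 : ℝ)) = Int.fract x := by
  unfold rep
  rw [AddCircle.coe_equivIco_mk_apply]
  simp

theorem measurable_rep : Measurable rep :=
  measurable_subtype_coe.comp (AddCircle.measurableEquivIco 1 0).measurable

open Classical in
theorem ae_block {b : ℕ} (hb : 2 ≤ b) (k : ℕ) (w : Fin k → ℤ) (hw : ∀ j, 0 ≤ w j ∧ w j < (b : ℤ)) :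
    ∀ᵐ x : ℝ ∂(volume.restrict (Ioc (0 : ℝ) 1)),
      Tendsto (fun N : ℕ =>
              ((((Finset.range N).filter (fun i : ℕ =>
                ∀ j : Fin k, ⌊x * (b:ℝ) ^ (i + j.val + 1)⌋ % (b:ℤ) = w j)).card : ℝ) / (N:ℝ)))
              atTop (𝓝 (1 / (b:ℝ) ^ k)) := by
  have hprob : IsProbabilityMeasure (volume : Measure (AddCircle (1 : ℝ))) := by
    refine ⟨?_⟩
    rw [AddCircle.measure_univ]
    simp
  have herg : Ergodic (fun y : AddCircle (1 : ℝ) => b • y) volume :=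
    AddCircle.ergodic_nsmul (by omega)
  set F : Set (AddCircle (1 : ℝ)) := {y | Dig b k w (rep y)} with hF
  have hFm : MeasurableSet F := measurable_rep (measurableSet_Dig b k w)
  have h1 := Pool.Agent.H165R3.birkhoff herg (F.indicator fun _ => (1 : ℝ))
    (measurable_const.indicator hFm) ⟨1, fun x => by
      by_cases hx : x ∈ F
      · simp [hx]
      · simp [hx]⟩
  have hmp := AddCircle.measurePreserving_mk (1 : ℝ) 0
  rw [zero_add] at hmp
  have hvol : (volume : Measure (AddCircle (1 : ℝ))) F = ENNReal.ofReal (1 / (b : ℝ) ^ k) := by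
    rw [← hmp.measure_preimage hFm.nullMeasurableSet, Measure.restrict_apply (hmp.measurable hFm)]
    rw [← volume_Dig hb k w hw]
    have h2 : (Ioc (0 : ℝ) 1 : Set ℝ) =ᵐ[volume] (Ico (0 : ℝ) 1 : Set ℝ) :=
      Ioc_ae_eq_Icc.trans Ico_ae_eq_Icc.symm
    rw [measure_congr ((ae_eq_refl _).inter h2)]
    congr 1
    ext x
    simp only [mem_inter_iff, mem_preimage, hF, mem_setOf_eq]
    constructor
    · rintro ⟨h3, h4⟩
      rw [rep_coe, Int.fract_eq_self.2 h4] at h3
      exact ⟨h3, h4⟩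
    · rintro ⟨h3, h4⟩
      rw [rep_coe, Int.fract_eq_self.2 h4]
      exact ⟨h3, h4⟩
  have hint : ∫ x, F.indicator (fun _ => (1 : ℝ)) x ∂(volume : Measure (AddCircle (1 : ℝ))) =
      1 / (b : ℝ) ^ k := by
    rw [integral_indicator_const _ hFm, Measure.real, hvol, ENNReal.toReal_ofReal (by positivity)]
    simp
  rw [hint] at h1
  have h2 := hmp.quasiMeasurePreserving.ae h1
  refine h2.mono fun x hx => ?_
  refine hx.congr fun N => ?_
  have hiter : ∀ i : ℕ, (fun y : AddCircle (1 : ℝ) => b • y)^[i] (x : AddCircle (1 : ℝ)) =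
      ((x * (b : ℝ) ^ i : ℝ) : AddCircle (1 : ℝ)) := by
    intro i
    induction i with
    | zero => simp
    | succ i ih =>
      rw [Function.iterate_succ_apply', ih, ← AddCircle.coe_nsmul]
      congr 1
      rw [nsmul_eq_mul, pow_succ]
      ring
  have hmem : ∀ i : ℕ, ((fun y : AddCircle (1 : ℝ) => b • y)^[i] (x : AddCircle (1 : ℝ)) ∈ F) ↔
      ∀ j : Fin k, ⌊x * (b:ℝ) ^ (i + j.val + 1)⌋ % (b:ℤ) = w j := by
    intro i
    rw [hiter, hF, mem_setOf_eq, rep_coe]
    unfold Dig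
    refine forall_congr' fun j => ?_
    have h3 : Int.fract (x * (b : ℝ) ^ i) * (b : ℝ) ^ (j.val + 1) =
        x * (b : ℝ) ^ (i + j.val + 1) - ((⌊x * (b : ℝ) ^ i⌋ * (b : ℤ) ^ (j.val + 1) : ℤ) : ℝ) := by
      rw [Int.fract]
      push_cast
      ring
    rw [h3, Int.floor_sub_intCast, pow_succ (b : ℤ), ← mul_assoc, Int.sub_mul_emod_self_right]
  rw [inv_mul_eq_div]
  congr 1
  rw [Finset.card_filter]
  push_cast
  refine Finset.sum_congr rfl fun i _ => ?_
  by_cases hi : (fun y : AddCircle (1 : ℝ) => b • y)^[i] (x : AddCircle (1 : ℝ)) ∈ F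
  · rw [indicator_of_mem hi, if_pos ((hmem i).1 hi)]
  · rw [indicator_of_notMem hi, if_neg (fun h => hi ((hmem i).2 h))]

/-- the set of absolutely normal numbers, as in the frozen statement -/
def AN : Set ℝ := {x : ℝ | ∀ b : ℕ, 2 ≤ b → ∀ k : ℕ, ∀ w : Fin k → ℤ,
            (∀ j : Fin k, 0 ≤ w j ∧ w j < (b:ℤ)) →
            Tendsto (fun N : ℕ =>
              ((((Finset.range N).filter (fun i : ℕ =>
                ∀ j : Fin k, ⌊x * (b:ℝ) ^ (i + j.val + 1)⌋ % (b:ℤ) = w j)).card : ℝ) / (N:ℝ)))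
              atTop (𝓝 (1 / (b:ℝ) ^ k))}

/-- **Borel's theorem.** -/
theorem ae_AN : ∀ᵐ x : ℝ ∂(volume.restrict (Ioc (0 : ℝ) 1)), x ∈ AN := by
  unfold AN
  simp only [mem_setOf_eq]
  rw [ae_all_iff]
  intro b
  by_cases hb : 2 ≤ b
  · have h1 : ∀ᵐ x : ℝ ∂(volume.restrict (Ioc (0 : ℝ) 1)), ∀ k : ℕ, ∀ w : Fin k → ℤ,
            (∀ j : Fin k, 0 ≤ w j ∧ w j < (b:ℤ)) →
            Tendsto (fun N : ℕ =>
              ((((Finset.range N).filter (fun i : ℕ =>
                ∀ j : Fin k, ⌊x * (b:ℝ) ^ (i + j.val + 1)⌋ % (b:ℤ) = w j)).card : ℝ) / (N:ℝ)))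
              atTop (𝓝 (1 / (b:ℝ) ^ k)) := by
      rw [ae_all_iff]
      intro k
      rw [ae_all_iff]
      intro w
      by_cases hw : ∀ j : Fin k, 0 ≤ w j ∧ w j < (b:ℤ)
      · refine (ae_block hb k w hw).mono fun x hx _ => ?_
        convert hx
      · exact ae_of_all _ fun x h => absurd h hw
    exact h1.mono fun x hx _ => hx
  · exact ae_of_all _ fun x h => absurd h hb

end Run7.h809.UN
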